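import Pool.Agent.H0.Jet.Proof

open MvPolynomial Pool.Agent.H0.Jet

namespace Pool.Agent.Results.MP_c360fa_mp.FiniteH

/-- The assertion of Q1 is false: there are `n > m > 1`, `f = f(u_0, ..., u_n)` with `f_n ≠ 0` and
`g = g(u_0, ..., u_m)` with `g_m ≠ 0` such that `f * g = 0` and `H(g)` is finite-dimensional
(in fact `n = 4`, `m = 3` and `H(g)` is a line). -/
theorem result : ∃ (n m : ℕ) (f g : A), 1 < m ∧ m < n ∧
    f ∈ supported ℝ (Set.Iic n) ∧ pderiv n f ≠ 0 ∧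
    g ∈ supported ℝ (Set.Iic m) ∧ pderiv m g ≠ 0 ∧
    dprod f g = 0 ∧ FiniteDimensional ℝ (H g) ∧ Module.finrank ℝ (H g) = 1 := by
  have hX : ∀ i n : ℕ, i ≤ n → (X i : A) ∈ supported ℝ (Set.Iic n) := fun i n h =>
    X_mem_supported.2 h
  refine ⟨4, 3, X 4, g, by norm_num, by norm_num, hX 4 4 le_rfl, ?_, ?_, ?_, dprod_X4, ?_, ?_⟩
  · simp
  · unfold g
    have h2 := hX 2 3 (by norm_num)
    have h1 := hX 1 3 (by norm_num)
    have h3 := hX 3 3 (by norm_num)
    exact add_mem (sub_mem (mul_mem h2 h2) (mul_mem (ofNat_mem _ 4) (mul_mem h1 h3)))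
      (mul_mem h3 h3)
  · intro h
    have h3 : pderiv 3 g = 2 * L := g3'
    rw [h3] at h
    exact (mul_ne_zero two_ne_zero L_ne) h
  · rw [H_eq]
    infer_instance
  · rw [H_eq]
    exact finrank_span_singleton (X_ne_zero 4)

end Pool.Agent.Results.MP_c360fa_mp.FiniteH
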